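import Pool.Agent.Y819.ZF.StmP

/-! Project ZF, part 5: the complement of the power of the cycle is regular -/

set_option autoImplicit false

namespace Pool.Agent.Y15.ZP

open Finset Pool.Agent.Y819.ZF

theorem sum_ind' {V : Type} [Finite V] (G : SimpleGraph V) (v : V) :
    ∑ᶠ w, ind G v w = (G.neighborSet v).ncard := by
  classical
  have := Fintype.ofFinite V
  rw [finsum_eq_sum_of_fintype]
  unfold ind
  rw [Finset.sum_boole, Set.ncard_eq_toFinset_card', Nat.cast_id]
  congr 1
  ext w
  rw [Finset.mem_filter, Set.mem_toFinset, SimpleGraph.mem_neighborSet]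
  exact ⟨fun h => h.2, fun h => ⟨Finset.mem_univ _, h⟩⟩

theorem regM_ind' {V : Type} [Finite V] (G : SimpleGraph V) (d : ℕ)
    (h : ∀ v, (G.neighborSet v).ncard = d) : RegM d (ind G) := by
  classical
  refine ⟨inferInstance, ?_, ?_, ?_⟩
  · intro v w
    unfold ind
    simp only [G.adj_comm]
  · intro v
    unfold ind
    simp
  · intro v
    rw [sum_ind', h]

theorem toNat_cast' {n : ℕ} {i : ℤ} (hi : 0 ≤ i) : ((i.toNat : ℕ) : ZMod n) = (i : ZMod n) := by
  have h1 : ((i.toNat : ℕ) : ℤ) = i := Int.toNat_of_nonneg hi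
  rw [← Int.cast_natCast, h1]

theorem main : S_PWR := by
  classical
  intro n k hn
  have hn0 : NeZero n := ⟨by omega⟩
  refine regM_ind' (powC n k)ᶜ (n - 1 - 2 * k) fun v => ?_
  obtain ⟨S, hS⟩ : ∃ S : Finset (ZMod n),
      S = (Finset.Icc (-(k : ℤ)) k).image (fun i : ℤ => v + (i : ZMod n)) := ⟨_, rfl⟩
  have hcard : S.card = 2 * k + 1 := by
    rw [hS, Finset.card_image_of_injOn, Int.card_Icc]
    · omega
    · intro i hi j hj h
      rw [Finset.coe_Icc, Set.mem_Icc] at hi hj
      have h1 : (i : ZMod n) = (j : ZMod n) := add_left_cancel h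
      rw [ZMod.intCast_eq_intCast_iff_dvd_sub] at h1
      obtain ⟨c, hc⟩ := h1
      have h2 : c = 0 := by
        by_contra h3
        rcases lt_or_gt_of_ne h3 with h4 | h4
        · have h5 : (n : ℤ) * c ≤ (n : ℤ) * (-1) :=
            mul_le_mul_of_nonneg_left (by omega) (by omega)
          omega
        · have h5 : (n : ℤ) * 1 ≤ (n : ℤ) * c :=
            mul_le_mul_of_nonneg_left (by omega) (by omega)
          omega
      rw [h2, mul_zero] at hc
      omega
  have h3 : ∀ w, w ∈ S ↔ w = v ∨ (powC n k).Adj v w := by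
    intro w
    rw [hS, Finset.mem_image]
    constructor
    · rintro ⟨i, hi, rfl⟩
      rw [Finset.mem_Icc] at hi
      by_cases hwv : v + (i : ZMod n) = v
      · exact Or.inl hwv
      · right
        unfold powC
        rw [SimpleGraph.fromRel_adj]
        refine ⟨fun h => hwv h.symm, ?_⟩
        have hi0 : i ≠ 0 := by
          rintro rfl
          apply hwv
          rw [Int.cast_zero, add_zero]
        rcases lt_or_gt_of_ne hi0 with h4 | h4
        · right
          refine ⟨(-i).toNat, by omega, by omega, ?_⟩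
          rw [toNat_cast' (by omega), Int.cast_neg]
          ring
        · left
          refine ⟨i.toNat, by omega, by omega, ?_⟩
          rw [toNat_cast' (by omega)]
    · rintro (h | h)
      · exact ⟨0, Finset.mem_Icc.2 ⟨by omega, by omega⟩, by rw [h, Int.cast_zero, add_zero]⟩
      · unfold powC at h
        rw [SimpleGraph.fromRel_adj] at h
        obtain ⟨-, ⟨j, h1, h2, h4⟩ | ⟨j, h1, h2, h4⟩⟩ := h
        · refine ⟨(j : ℤ), Finset.mem_Icc.2 ⟨by omega, by omega⟩, ?_⟩
          rw [h4, Int.cast_natCast]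
        · refine ⟨-(j : ℤ), Finset.mem_Icc.2 ⟨by omega, by omega⟩, ?_⟩
          rw [h4, Int.cast_neg, Int.cast_natCast]
          ring
  have h2 : ((powC n k)ᶜ).neighborSet v = ((S : Set (ZMod n)))ᶜ := by
    ext w
    rw [SimpleGraph.mem_neighborSet, SimpleGraph.compl_adj, Set.mem_compl_iff, Finset.mem_coe, h3]
    constructor
    · rintro ⟨h4, h5⟩ (h6 | h6)
      · exact h4 h6.symm
      · exact h5 h6
    · intro h4
      exact ⟨fun h5 => h4 (Or.inl h5.symm), fun h5 => h4 (Or.inr h5)⟩
  rw [h2, Set.ncard_compl, Set.ncard_coe_finset, hcard, Nat.card_zmod]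
  omega

end Pool.Agent.Y15.ZP
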